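import Pool.Agent.Helper77.SD.St

/-! # Project SD (MP_93a5ff_an), module DIV: integration by parts with a vector field -/

set_option autoImplicit false

namespace Pool.Agent.Helper60.SD

open Pool.Agent.Helper77.SD
open MeasureTheory Metric Set
open scoped Gradient RealInnerProductSpace

lemma DIV_grad_coord {d : ℕ} (w : E d → ℝ) (x : E d) (i : Fin d) :
    (∇ w x) i = fderiv ℝ w x (EuclideanSpace.single i (1 : ℝ)) := by
  rw [← inner_gradient_left, EuclideanSpace.inner_single_right]
  simp

lemma DIV_inner {d : ℕ} (v y : E d) : ⟪v, y⟫ = ∑ i, v i * y i := by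
  rw [PiLp.inner_apply]
  apply Finset.sum_congr rfl
  intro i _
  simp [mul_comm]

theorem hDIV : StDIV := by
  intro d W w₁ w₂ hW hw₁ hw₂ hc₁ hc₂
  have hWd : Differentiable ℝ W := hW.differentiable one_ne_zero
  have hw₁d : Differentiable ℝ w₁ := hw₁.differentiable one_ne_zero
  have hw₂d : Differentiable ℝ w₂ := hw₂.differentiable one_ne_zero
  have hWi : ∀ i : Fin d, ContDiff ℝ 1 (fun x => W x i) := fun i =>
    (contDiff_euclidean.1 hW) i
  have hWid : ∀ i : Fin d, Differentiable ℝ (fun x => W x i) := fun i => (hWi i).differentiable one_ne_zero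
  have hfW : ∀ (i : Fin d) (x v : E d), fderiv ℝ (fun x => W x i) x v = (fderiv ℝ W x v) i := by
    intro i x v
    have h1 : HasFDerivAt (fun x => W x i)
        ((EuclideanSpace.proj i : E d →L[ℝ] ℝ).comp (fderiv ℝ W x)) x :=
      (EuclideanSpace.proj i : E d →L[ℝ] ℝ).hasFDerivAt.comp x (hWd x).hasFDerivAt
    rw [h1.fderiv]
    rfl
  -- continuity of the derivatives
  have cW : ∀ (i : Fin d), Continuous (fun x => (fderiv ℝ W x (EuclideanSpace.single i (1 : ℝ))) i) := by
    intro i
    have h := (hWi i).continuous_fderiv one_ne_zero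
    have h2 : Continuous fun x => fderiv ℝ (fun x => W x i) x (EuclideanSpace.single i (1 : ℝ)) :=
      h.clm_apply continuous_const
    refine h2.congr fun x => hfW i x _
  have c₁ : ∀ (i : Fin d), Continuous (fun x => fderiv ℝ w₁ x (EuclideanSpace.single i (1 : ℝ))) := fun i =>
    (hw₁.continuous_fderiv one_ne_zero).clm_apply continuous_const
  have c₂ : ∀ (i : Fin d), Continuous (fun x => fderiv ℝ w₂ x (EuclideanSpace.single i (1 : ℝ))) := fun i =>
    (hw₂.continuous_fderiv one_ne_zero).clm_apply continuous_const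
  have cWi : ∀ i : Fin d, Continuous (fun x => W x i) := fun i => (hWi i).continuous
  have k₁ := hw₁.continuous
  have k₂ := hw₂.continuous
  -- the derivative of the product
  have hprod : ∀ (i : Fin d) (x : E d), fderiv ℝ (fun x => w₁ x * W x i) x (EuclideanSpace.single i (1 : ℝ))
      = w₁ x * (fderiv ℝ W x (EuclideanSpace.single i (1 : ℝ))) i
        + W x i * fderiv ℝ w₁ x (EuclideanSpace.single i (1 : ℝ)) := by
    intro i x
    rw [fderiv_fun_mul (hw₁d x) (hWid i x)]
    simp [hfW]
  -- integrability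
  have I1 : ∀ i : Fin d, Integrable (fun x => fderiv ℝ (fun x => w₁ x * W x i) x (EuclideanSpace.single i (1 : ℝ)) * w₂ x) := by
    intro i
    apply Continuous.integrable_of_hasCompactSupport
    · have : Continuous (fun x => fderiv ℝ (fun x => w₁ x * W x i) x (EuclideanSpace.single i (1 : ℝ))) := by
        simp only [hprod]
        exact (k₁.mul (cW i)).add ((cWi i).mul (c₁ i))
      exact this.mul k₂
    · exact hc₂.mul_left
  have I2 : ∀ i : Fin d, Integrable (fun x => (w₁ x * W x i) * fderiv ℝ w₂ x (EuclideanSpace.single i (1 : ℝ))) := by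
    intro i
    apply Continuous.integrable_of_hasCompactSupport
    · exact (k₁.mul (cWi i)).mul (c₂ i)
    · exact (hc₁.mul_right).mul_right
  have I3 : ∀ i : Fin d, Integrable (fun x => (w₁ x * W x i) * w₂ x) := by
    intro i
    apply Continuous.integrable_of_hasCompactSupport
    · exact (k₁.mul (cWi i)).mul k₂
    · exact hc₂.mul_left
  have I4 : ∀ i : Fin d, Integrable (fun x => W x i * (w₂ x * fderiv ℝ w₁ x (EuclideanSpace.single i (1 : ℝ)))) := by
    intro i
    apply Continuous.integrable_of_hasCompactSupport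
    · exact (cWi i).mul (k₂.mul (c₁ i))
    · exact (hc₂.mul_right).mul_left
  have I5 : ∀ i : Fin d, Integrable (fun x => (fderiv ℝ W x (EuclideanSpace.single i (1 : ℝ))) i * (w₁ x * w₂ x)) := by
    intro i
    apply Continuous.integrable_of_hasCompactSupport
    · exact (cW i).mul (k₁.mul k₂)
    · exact (hc₂.mul_left).mul_left
  have P : ∀ i : Fin d, ∫ x, (w₁ x * W x i) * fderiv ℝ w₂ x (EuclideanSpace.single i (1 : ℝ))
      = - ∫ x, fderiv ℝ (fun x => w₁ x * W x i) x (EuclideanSpace.single i (1 : ℝ)) * w₂ x := by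
    intro i
    exact integral_mul_fderiv_eq_neg_fderiv_mul_of_integrable (I1 i) (I2 i) (I3 i)
      (fun x _ => (hw₁d x).mul (hWid i x)) (fun x _ => hw₂d x)
  have L : (fun x => ⟪W x, w₂ x • ∇ w₁ x + w₁ x • ∇ w₂ x⟫)
      = fun x => ∑ i, (W x i * (w₂ x * fderiv ℝ w₁ x (EuclideanSpace.single i (1 : ℝ)))
        + (w₁ x * W x i) * fderiv ℝ w₂ x (EuclideanSpace.single i (1 : ℝ))) := by
    funext x
    rw [DIV_inner]
    apply Finset.sum_congr rfl
    intro i _
    simp only [PiLp.add_apply, PiLp.smul_apply, smul_eq_mul, DIV_grad_coord]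
    ring
  have I42 : ∀ i : Fin d, Integrable (fun x => W x i * (w₂ x * fderiv ℝ w₁ x (EuclideanSpace.single i (1 : ℝ)))
      + (w₁ x * W x i) * fderiv ℝ w₂ x (EuclideanSpace.single i (1 : ℝ))) := fun i => (I4 i).add (I2 i)
  rw [L, integral_finsetSum _ (fun i _ => I42 i)]
  have R : (fun x => dv W x * (w₁ x * w₂ x))
      = fun x => ∑ i, (fderiv ℝ W x (EuclideanSpace.single i (1 : ℝ))) i * (w₁ x * w₂ x) := by
    funext x
    rw [dv, Finset.sum_mul]
  rw [R, integral_finsetSum _ (fun i _ => I5 i), ← Finset.sum_neg_distrib]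
  apply Finset.sum_congr rfl
  intro i _
  rw [integral_add (I4 i) (I2 i), P i]
  have h6 : ∫ x, fderiv ℝ (fun x => w₁ x * W x i) x (EuclideanSpace.single i (1 : ℝ)) * w₂ x
      = ∫ x, (fderiv ℝ W x (EuclideanSpace.single i (1 : ℝ))) i * (w₁ x * w₂ x)
        + W x i * (w₂ x * fderiv ℝ w₁ x (EuclideanSpace.single i (1 : ℝ))) := by
    apply integral_congr_ae
    refine Filter.Eventually.of_forall fun x => ?_
    simp only [hprod]
    ring
  rw [h6, integral_add (I5 i) (I4 i)]
  ring

end Pool.Agent.Helper60.SD
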